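import Mathlib

/-!
# Minimal weights of representations in base `m`
-/

set_option autoImplicit false

namespace Pool.Agent.Q33.BSR

/-- the value of a list of digits in base `m` -/
def V (m : ℤ) : List ℤ → ℤ
  | [] => 0
  | d :: l => d + m * V m l

/-- the weight of a list of digits -/
def N : List ℤ → ℕ
  | [] => 0
  | d :: l => d.natAbs + N l

/-- the least weight of a representation -/
noncomputable def cost (m : ℤ) (y : ℤ) : ℕ := sInf {n : ℕ | ∃ l, V m l = y ∧ N l = n}

variable {m : ℤ}

lemma exists_list (m y : ℤ) : ∃ l, V m l = y ∧ N l = cost m y :=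
  Nat.sInf_mem (s := {n : ℕ | ∃ l, V m l = y ∧ N l = n}) ⟨_, [y], by simp [V], rfl⟩

lemma cost_le {y : ℤ} {l : List ℤ} (h : V m l = y) : cost m y ≤ N l :=
  Nat.sInf_le ⟨l, h, rfl⟩

/-- add `s` at the position `j` -/
lemma addAt (m s : ℤ) (j : ℕ) : ∀ l : List ℤ, ∃ l', V m l' = V m l + s * m ^ j ∧
    N l' ≤ N l + s.natAbs ∧ (j < l.length → l'.length = l.length) := by
  induction j with
  | zero =>
    intro l
    cases l with
    | nil => exact ⟨[s], by simp [V], by simp [N], fun h => absurd h (by simp)⟩
    | cons d l =>
      refine ⟨(d + s) :: l, ?_, ?_, fun _ => rfl⟩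
      · simp only [V, pow_zero, mul_one]
        ring
      · simp only [N]
        have := Int.natAbs_add_le d s
        omega
  | succ j ih =>
    intro l
    cases l with
    | nil =>
      obtain ⟨l', h1, h2, -⟩ := ih []
      refine ⟨0 :: l', ?_, ?_, fun h => absurd h (by simp)⟩
      · simp only [V] at h1 ⊢
        rw [h1]
        ring
      · simp only [N] at h2 ⊢
        simpa using h2
    | cons d l =>
      obtain ⟨l', h1, h2, h3⟩ := ih l
      refine ⟨d :: l', ?_, ?_, fun h => ?_⟩
      · simp only [V]
        rw [h1]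
        ring
      · simp only [N]
        omega
      · simp only [List.length_cons] at h ⊢
        rw [h3 (by omega)]

lemma cost_add (y s : ℤ) (j : ℕ) : cost m (y + s * m ^ j) ≤ cost m y + s.natAbs := by
  obtain ⟨l, h1, h2⟩ := exists_list m y
  obtain ⟨l', h3, h4, -⟩ := addAt m s j l
  have h5 : cost m (y + s * m ^ j) ≤ N l' := cost_le (by rw [h3, h1])
  omega

lemma cost_add' (y s : ℤ) : cost m (y + s) ≤ cost m y + s.natAbs := by
  have := cost_add (m := m) y s 0
  rwa [pow_zero, mul_one] at this

lemma cost_cons (d z : ℤ) : cost m (d + m * z) ≤ d.natAbs + cost m z := by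
  obtain ⟨l, h1, h2⟩ := exists_list m z
  have h3 : cost m (d + m * z) ≤ N (d :: l) := cost_le (by simp only [V]; rw [h1])
  simp only [N] at h3
  omega

lemma natAbs_le_mul (hm : 2 ≤ m) (q : ℤ) : q.natAbs ≤ (m * q).natAbs := by
  rw [Int.natAbs_mul]
  have : 1 ≤ m.natAbs := by omega
  exact Nat.le_mul_of_pos_left _ (by omega)

/-- minimal lists, decomposed -/
lemma exists_cons {y : ℤ} (hy : y ≠ 0) : ∃ d z, y = d + m * z ∧
    cost m y = d.natAbs + cost m z := by
  obtain ⟨l, h1, h2⟩ := exists_list m y
  cases l with
  | nil => exact absurd h1.symm hy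
  | cons d l =>
    refine ⟨d, V m l, h1.symm, ?_⟩
    simp only [V, N] at h1 h2
    have h3 : cost m (V m l) ≤ N l := cost_le rfl
    have h4 := cost_cons (m := m) d (V m l)
    rw [h1] at h4
    omega

lemma cost_zero : cost m 0 = 0 := by
  have h : cost m 0 ≤ N [] := cost_le rfl
  simp only [N] at h
  omega

lemma cost_mul (hm : 2 ≤ m) (y : ℤ) : cost m (m * y) = cost m y := by
  apply le_antisymm
  · have := cost_cons (m := m) 0 y
    simpa using this
  · by_cases hy : y = 0
    · rw [hy, mul_zero]
    · obtain ⟨d, z, h1, h2⟩ := exists_cons (m := m) (y := m * y) (mul_ne_zero (by omega) hy)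
      have h3 : d = m * (y - z) := by linarith
      have h4 := natAbs_le_mul hm (y - z)
      rw [← h3] at h4
      have h5 := cost_add' (m := m) z (y - z)
      rw [add_sub_cancel] at h5
      omega

lemma cost_mul_pow (hm : 2 ≤ m) (y : ℤ) (j : ℕ) : cost m (m ^ j * y) = cost m y := by
  induction j with
  | zero => rw [pow_zero, one_mul]
  | succ j ih => rw [pow_succ', mul_assoc, cost_mul hm, ih]

/-- **Growth.** -/
lemma growth (hm : 2 ≤ m) (y : ℤ) : cost m y + 1 ≤ cost m (m ^ 2 * y + 1) := by
  have hne : m ^ 2 * y + 1 ≠ 0 := by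
    intro h
    have h1 : m ∣ 1 := ⟨-(m * y), by linarith⟩
    have h2 := Int.le_of_dvd one_pos h1
    omega
  obtain ⟨d, z, h1, h2⟩ := exists_cons (m := m) hne
  -- `z = m y + c`, `d = 1 - m c`
  obtain ⟨c, rfl⟩ : ∃ c, z = m * y + c := ⟨z - m * y, by ring⟩
  have hd : d = 1 - m * c := by
    have : m ^ 2 * y + 1 = d + m * (m * y + c) := h1
    linear_combination -this
  have h3 := cost_add' (m := m) (m * y + c) (-c)
  rw [add_neg_cancel_right, cost_mul hm] at h3
  rcases lt_or_ge 2 m with hm3 | hm2
  · rcases eq_or_ne c 0 with rfl | hc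
    · rw [mul_zero, sub_zero] at hd
      omega
    · have h4 : c.natAbs + 1 ≤ d.natAbs := by
        rw [hd]
        rcases lt_or_gt_of_ne hc with hc | hc
        · have : m * c ≤ 3 * c := by nlinarith
          omega
        · have : 3 * c ≤ m * c := by nlinarith
          omega
      omega
  · obtain rfl : m = 2 := le_antisymm hm2 hm
    rcases eq_or_ne c 1 with rfl | hc
    · -- the exceptional case
      have hne' : (2 * y + 1 : ℤ) ≠ 0 := by omega
      obtain ⟨d', z', h5, h6⟩ := exists_cons (m := 2) hne'
      obtain ⟨c', rfl⟩ : ∃ c', z' = y + c' := ⟨z' - y, by ring⟩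
      have h7 := cost_add' (m := 2) (y + c') (-c')
      rw [add_neg_cancel_right] at h7
      omega
    · omega

/-- the first digit of a minimal representation is small -/
lemma digit_lt (hm : 2 ≤ m) {d z : ℤ} (h : cost m (d + m * z) = d.natAbs + cost m z) :
    |d| ≤ m - 1 := by
  by_contra hcon
  push Not at hcon
  rcases le_or_gt 0 d with hd | hd
  · rw [abs_of_nonneg hd] at hcon
    have h1 := cost_cons (m := m) (d - m) (z + 1)
    have h2 := cost_add' (m := m) z 1
    have h3 : d - m + m * (z + 1) = d + m * z := by ring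
    rw [h3, h] at h1
    omega
  · rw [abs_of_neg hd] at hcon
    have h1 := cost_cons (m := m) (d + m) (z + (-1))
    have h2 := cost_add' (m := m) z (-1)
    have h3 : d + m + m * (z + (-1)) = d + m * z := by ring
    rw [h3, h] at h1
    omega

/-- **Short minimal representations.** -/
lemma short (hm : 2 ≤ m) (L : ℕ) : ∀ y : ℤ, |y| ≤ m ^ L →
    ∃ l, V m l = y ∧ N l = cost m y ∧ l.length ≤ L + 1 := by
  induction L with
  | zero =>
    intro y hy
    rw [pow_zero] at hy
    rcases eq_or_ne y 0 with rfl | hy0
    · exact ⟨[], rfl, cost_zero.symm, by simp⟩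
    · refine ⟨[y], by simp [V], ?_, by simp⟩
      obtain ⟨d, z, h1, h2⟩ := exists_cons (m := m) hy0
      have h3 : cost m y ≤ N [y] := cost_le (by simp [V])
      simp only [N] at h3 ⊢
      have h4 : y.natAbs = 1 := by
        have := Int.natAbs_pos.2 hy0
        have h7 : (y.natAbs : ℤ) = |y| := Int.natCast_natAbs y
        omega
      have h5 : 0 < cost m y := by
        by_contra hc
        obtain ⟨l, hl1, hl2⟩ := exists_list m y
        have hzero : ∀ l : List ℤ, N l = 0 → V m l = 0 := by
          intro l
          induction l with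
          | nil => intro _; rfl
          | cons d l ih =>
            intro h
            simp only [N] at h
            have hd : d = 0 := Int.natAbs_eq_zero.1 (by omega)
            simp only [V]
            rw [ih (by omega), hd]
            ring
        exact hy0 (by rw [← hl1]; exact hzero l (by omega))
      omega
  | succ L ih =>
    intro y hy
    rcases eq_or_ne y 0 with rfl | hy0
    · exact ⟨[], rfl, cost_zero.symm, by simp⟩
    · obtain ⟨d, z, h1, h2⟩ := exists_cons (m := m) hy0
      have hd : |d| ≤ m - 1 := digit_lt hm (by rw [← h1]; exact h2)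
      have hz : |z| ≤ m ^ L := by
        have h3 : m * |z| ≤ m ^ (L + 1) + (m - 1) := by
          have h4 : m * |z| = |y - d| := by
            have h5 : y - d = m * z := by rw [h1]; ring
            rw [h5, abs_mul, abs_of_nonneg (by omega : (0 : ℤ) ≤ m)]
          rw [h4]
          calc |y - d| ≤ |y| + |d| := abs_sub _ _
            _ ≤ _ := add_le_add hy hd
        rw [pow_succ'] at h3
        by_contra hcon
        push Not at hcon
        have h5 : m ^ L + 1 ≤ |z| := hcon
        nlinarith
      obtain ⟨l, h3, h4, h5⟩ := ih z hz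
      refine ⟨d :: l, ?_, ?_, ?_⟩
      · simp only [V]
        rw [h3, h1]
      · simp only [N]
        rw [h4, h2]
      · simp only [List.length_cons]
        omega

lemma two_pow_bound (L : ℕ) (hL : 1 ≤ L) : 4 * (L : ℤ) - 4 ≤ 2 ^ L := by
  induction L with
  | zero => omega
  | succ L ih =>
    rcases Nat.lt_or_ge L 2 with h | h
    · interval_cases L <;> norm_num
    · have := ih (by omega)
      rw [pow_succ]
      push_cast
      have h4 : (4 : ℤ) ≤ 2 ^ L := by
        calc (4 : ℤ) = 2 ^ 2 := by norm_num
          _ ≤ 2 ^ L := pow_le_pow_right₀ (by norm_num) h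
      linarith

/-- **Representations of large numbers with few positions are expensive.** -/
lemma restricted (hm : 2 ≤ m) : ∀ (k : ℕ) (l : List ℤ), N l + l.length = k → l ≠ [] →
    ∀ L : ℕ, m ^ L ≤ |V m l| →
    (cost m (V m l) : ℤ) + 2 * L ≤ N l + 2 * ((l.length : ℤ) - 1) + m + 2 := by
  intro k
  induction k using Nat.strong_induction_on with
  | _ k ih =>
    intro l hk hl L hL
    cases l with
    | nil => exact absurd rfl hl
    | cons d l =>
      have hlen : ((d :: l).length : ℤ) - 1 = l.length := by simp
      rw [hlen]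
      have hcost : cost m (V m (d :: l)) ≤ N (d :: l) := cost_le rfl
      rcases Nat.eq_zero_or_pos L with rfl | hLpos
      · push_cast
        have : (0 : ℤ) ≤ l.length := by positivity
        omega
      · cases l with
        | nil =>
          -- one digit
          simp only [V, mul_zero, add_zero, N] at hL ⊢
          have h1 := cost_cons (m := m) (Int.tmod d m) (Int.tdiv d m)
          rw [Int.tmod_add_mul_tdiv] at h1
          have h2 : cost m (Int.tdiv d m) ≤ (Int.tdiv d m).natAbs := by
            have := cost_add' (m := m) 0 (Int.tdiv d m)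
            rw [zero_add, cost_zero, zero_add] at this
            exact this
          have h3 : (Int.tmod d m).natAbs < m.natAbs := by
            rw [Int.natAbs_tmod]
            exact Nat.mod_lt _ (by omega)
          have h4 : (Int.tdiv d m).natAbs = d.natAbs / m.natAbs := Int.natAbs_tdiv d m
          have h5 : 2 * (d.natAbs / m.natAbs) ≤ d.natAbs := by
            calc 2 * (d.natAbs / m.natAbs) ≤ m.natAbs * (d.natAbs / m.natAbs) :=
                  Nat.mul_le_mul_right _ (by omega)
              _ ≤ d.natAbs := Nat.mul_div_le _ _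
          have h6 := two_pow_bound L hLpos
          have h7 : (2 : ℤ) ^ L ≤ m ^ L := pow_le_pow_left₀ (by norm_num) hm L
          have h8 : (d.natAbs : ℤ) = |d| := Int.natCast_natAbs d
          simp only [List.length_nil]
          push_cast
          omega
        | cons d' l' =>
          rcases le_or_gt (|d|) (m - 1) with hd | hd
          · -- small first digit
            obtain ⟨L', rfl⟩ : ∃ L', L = L' + 1 := ⟨L - 1, by omega⟩
            have hV : V m (d :: d' :: l') = d + m * V m (d' :: l') := rfl
            have hN : N (d :: d' :: l') = d.natAbs + N (d' :: l') := rfl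
            have h1 : m ^ L' ≤ |V m (d' :: l')| := by
              rw [hV, pow_succ'] at hL
              have h2 : |d + m * V m (d' :: l')| ≤ |d| + m * |V m (d' :: l')| := by
                calc |d + m * V m (d' :: l')| ≤ |d| + |m * V m (d' :: l')| := abs_add_le _ _
                  _ = _ := by rw [abs_mul, abs_of_nonneg (by omega : (0 : ℤ) ≤ m)]
              by_contra hcon
              push Not at hcon
              have h5 : |V m (d' :: l')| + 1 ≤ m ^ L' := hcon
              nlinarith
            have h3 := ih (N (d' :: l') + (d' :: l').length) (by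
              rw [← hk, hN]
              simp only [List.length_cons]
              omega) (d' :: l') rfl (by simp) L' h1
            have h4 := cost_cons (m := m) d (V m (d' :: l'))
            rw [← hV] at h4
            rw [hN]
            have h5 : (d.natAbs : ℤ) = |d| := Int.natCast_natAbs d
            simp only [List.length_cons] at h3 ⊢
            push_cast at h3 ⊢
            omega
          · -- carry
            obtain ⟨s, hs1, hs2⟩ : ∃ s : ℤ, s.natAbs = 1 ∧
                (d - s * m).natAbs + m.natAbs = d.natAbs := by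
              rcases le_or_gt 0 d with h0 | h0
              · rw [abs_of_nonneg h0] at hd
                exact ⟨1, rfl, by omega⟩
              · rw [abs_of_neg h0] at hd
                exact ⟨-1, rfl, by omega⟩
            obtain ⟨l'', h1, h2, h3⟩ := addAt m s 0 (d' :: l')
            have h3' := h3 (by simp)
            rw [pow_zero, mul_one] at h1
            have hne : (d - s * m) :: l'' ≠ [] := by simp
            have hV : V m ((d - s * m) :: l'') = V m (d :: d' :: l') := by
              change d - s * m + m * V m l'' = d + m * V m (d' :: l')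
              rw [h1]
              ring
            have hN : N ((d - s * m) :: l'') + (m.natAbs - 1) ≤ N (d :: d' :: l') := by
              change (d - s * m).natAbs + N l'' + (m.natAbs - 1) ≤ d.natAbs + N (d' :: l')
              omega
            have hlen' : ((d - s * m) :: l'').length = (d :: d' :: l').length := by
              simp only [List.length_cons] at h3' ⊢
              omega
            have h4 := ih (N ((d - s * m) :: l'') + ((d - s * m) :: l'').length) (by
              rw [← hk, hlen']
              have : 1 ≤ m.natAbs - 1 := by omega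
              omega) ((d - s * m) :: l'') rfl hne L (by rw [hV]; exact hL)
            rw [hV, hlen', hlen] at h4
            omega

/-- the largest cost below `m ^ L` -/
noncomputable def F (m : ℤ) (L : ℕ) : ℕ := (Finset.Ioo (-(m ^ L)) (m ^ L)).sup (cost m)

lemma le_F {L : ℕ} {y : ℤ} (h : |y| < m ^ L) : cost m y ≤ F m L := by
  apply Finset.le_sup (f := cost m)
  rw [Finset.mem_Ioo]
  exact abs_lt.1 h

lemma exists_F (hm : 2 ≤ m) (L : ℕ) : ∃ y : ℤ, |y| < m ^ L ∧ cost m y = F m L := by
  have hpos : 0 < m ^ L := pow_pos (by omega) L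
  have hne : (Finset.Ioo (-(m ^ L)) (m ^ L)).Nonempty := ⟨0, by
    rw [Finset.mem_Ioo]
    constructor <;> linarith⟩
  obtain ⟨y, hy, h⟩ := Finset.exists_mem_eq_sup _ hne (cost m)
  exact ⟨y, abs_lt.2 (Finset.mem_Ioo.1 hy), h.symm⟩

lemma F_succ_le (hm : 2 ≤ m) (L : ℕ) : F m (L + 1) ≤ F m L + m.natAbs := by
  obtain ⟨y, hy, h⟩ := exists_F hm (L + 1)
  rw [← h]
  have h1 := cost_cons (m := m) (Int.tmod y m) (Int.tdiv y m)
  rw [Int.tmod_add_mul_tdiv] at h1
  have h3 : (Int.tmod y m).natAbs < m.natAbs := by
    rw [Int.natAbs_tmod]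
    exact Nat.mod_lt _ (by omega)
  have h2 : cost m (Int.tdiv y m) ≤ F m L := by
    apply le_F
    have h4 : ((Int.tdiv y m).natAbs : ℤ) = |Int.tdiv y m| := Int.natCast_natAbs _
    have h5 : (y.natAbs : ℤ) = |y| := Int.natCast_natAbs _
    have h6 : (m.natAbs : ℤ) = m := Int.natAbs_of_nonneg (by omega)
    rw [← h4, Int.natAbs_tdiv]
    change ((y.natAbs / m.natAbs : ℕ) : ℤ) < m ^ L
    rw [Int.natCast_div, h5, h6]
    rw [pow_succ] at hy
    exact Int.ediv_lt_of_lt_mul (by omega) hy
  omega

lemma F_growth (hm : 2 ≤ m) (L : ℕ) : F m L + 1 ≤ F m (L + 2) := by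
  obtain ⟨y, hy, h⟩ := exists_F hm L
  rw [← h]
  refine (growth hm y).trans (le_F ?_)
  have h1 : |y| + 1 ≤ m ^ L := hy
  have h2 : m ^ 2 * |y| + 1 < m ^ (L + 2) := by
    rw [pow_add]
    nlinarith
  calc |m ^ 2 * y + 1| ≤ |m ^ 2 * y| + |1| := abs_add_le _ _
    _ = m ^ 2 * |y| + 1 := by rw [abs_mul, abs_of_nonneg (sq_nonneg m), abs_one]
    _ < _ := h2

lemma F_mono (hm : 2 ≤ m) {a b : ℕ} (h : a ≤ b) : F m a ≤ F m b := by
  obtain ⟨y, hy, h'⟩ := exists_F hm a
  rw [← h']
  exact le_F (hy.trans_le (pow_le_pow_right₀ (by omega) h))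

lemma F_growth' (hm : 2 ≤ m) (a j : ℕ) : F m a + j / 2 ≤ F m (a + j) := by
  induction j using Nat.strong_induction_on with
  | _ j ih =>
    rcases Nat.lt_or_ge j 2 with h | h
    · have h1 : j / 2 = 0 := Nat.div_eq_of_lt h
      rw [h1, add_zero]
      exact F_mono hm (by omega)
    · have h1 := ih (j - 2) (by omega)
      have h2 := F_growth hm (a + (j - 2))
      have h3 : a + (j - 2) + 2 = a + j := by omega
      rw [h3] at h2
      omega

end Pool.Agent.Q33.BSR
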