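import Pool.Agent.Q33.BSR.Main

/-!
# The groups `G_{p,q}`
-/

set_option autoImplicit false
set_option linter.unusedSectionVars false

namespace Pool.Agent.Q33.BSR

/-- the ring `ℤ[p/q, q/p]` -/
def A (p q : ℕ) : Subring ℚ := Subring.closure {(p : ℚ) / q, (q : ℚ) / p}

/-- the unit `p/q` of this ring -/
def u (p q : ℕ) [NeZero p] [NeZero q] : (A p q)ˣ where
  val := ⟨(p : ℚ) / q, Subring.subset_closure (Or.inl rfl)⟩
  inv := ⟨(q : ℚ) / p, Subring.subset_closure (Or.inr rfl)⟩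
  val_inv := Subtype.ext (by
    change (p : ℚ) / q * (q / p) = 1
    have hp : (p : ℚ) ≠ 0 := NeZero.ne _
    have hq : (q : ℚ) ≠ 0 := NeZero.ne _
    field_simp)
  inv_val := Subtype.ext (by
    change (q : ℚ) / p * (p / q) = 1
    have hp : (p : ℚ) ≠ 0 := NeZero.ne _
    have hq : (q : ℚ) ≠ 0 := NeZero.ne _
    field_simp)

/-- The group `G_{p,q} = ℤ[p/q, q/p] ⋊ ℤ` of the pairs `(x, k)`. -/
@[ext]
structure GG (p q : ℕ) where
  /-- the first component -/
  x : A p q
  /-- the second component -/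
  k : ℤ

namespace GG

variable {p q : ℕ} [NeZero p] [NeZero q]

/-- the product `(x, k) (y, l) = (x + (p/q) ^ k y, k + l)` -/
instance : Mul (GG p q) := ⟨fun g h => ⟨g.x + ((u p q ^ g.k : (A p q)ˣ) : A p q) * h.x, g.k + h.k⟩⟩

instance : One (GG p q) := ⟨⟨0, 0⟩⟩

instance : Inv (GG p q) := ⟨fun g => ⟨-(((u p q ^ (-g.k) : (A p q)ˣ) : A p q) * g.x), -g.k⟩⟩

lemma mul_x (g h : GG p q) : (g * h).x = g.x + ((u p q ^ g.k : (A p q)ˣ) : A p q) * h.x := rfl

lemma mul_k (g h : GG p q) : (g * h).k = g.k + h.k := rfl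

lemma one_x : (1 : GG p q).x = 0 := rfl

lemma one_k : (1 : GG p q).k = 0 := rfl

lemma inv_x (g : GG p q) : (g⁻¹).x = -(((u p q ^ (-g.k) : (A p q)ˣ) : A p q) * g.x) := rfl

lemma inv_k (g : GG p q) : (g⁻¹).k = -g.k := rfl

instance : Group (GG p q) where
  mul_assoc a b c := by
    apply GG.ext
    · simp only [mul_x, mul_k]
      rw [zpow_add, Units.val_mul]
      ring
    · simp only [mul_k]
      ring
  one_mul a := by
    apply GG.ext
    · simp only [mul_x, one_x, one_k]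
      simp
    · simp only [mul_k, one_k, zero_add]
  mul_one a := by
    apply GG.ext
    · simp only [mul_x, one_x]
      simp
    · simp only [mul_k, one_k, add_zero]
  inv_mul_cancel a := by
    apply GG.ext
    · simp only [mul_x, inv_x, inv_k, one_x]
      ring
    · simp only [mul_k, inv_k, one_k]
      ring

/-- the generator `a = (1, 0)` -/
def a (p q : ℕ) : GG p q := ⟨1, 0⟩

/-- the generator `t = (0, 1)` -/
def t (p q : ℕ) : GG p q := ⟨0, 1⟩

lemma u_pow (k : ℤ) : (((u p q ^ k : (A p q)ˣ) : A p q) : ℚ) = ((p : ℚ) / q) ^ k := by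
  have h1 : ∀ v : (A p q)ˣ, (((v : A p q)) : ℚ) = ((Units.map (A p q).subtype v : ℚˣ) : ℚ) :=
    fun v => rfl
  rw [h1, map_zpow, Units.val_zpow_eq_zpow_val]
  rfl

end GG

/-- coordinates of `G_{1,q}` -/
def coord_one (q : ℕ) [NeZero q] : Coord (q : ℤ) (GG 1 q) (GG.a 1 q) (GG.t 1 q)⁻¹ where
  x g := (g.x : ℚ)
  k g := -g.k
  x_one := rfl
  k_one := rfl
  x_a g := by
    rw [GG.mul_x]
    push_cast
    rw [GG.u_pow]
    change (g.x : ℚ) + _ * 1 = _
    rw [mul_one, zpow_neg, Nat.cast_one, one_div, inv_zpow]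
  k_a g := by
    rw [GG.mul_k]
    change -(g.k + 0) = _
    rw [add_zero]
  x_t g := by
    rw [GG.mul_x, GG.inv_x]
    have h1 : (GG.t 1 q).x = 0 := rfl
    rw [h1, mul_zero, neg_zero, mul_zero, add_zero]
  k_t g := by
    rw [GG.mul_k, GG.inv_k]
    change -(g.k + -1) = _
    ring
  inj g h h1 h2 := by
    apply GG.ext
    · exact Subtype.ext h1
    · exact neg_injective h2

/-- coordinates of `G_{p,1}` -/
def coord_one' (p : ℕ) [NeZero p] : Coord (p : ℤ) (GG p 1) (GG.a p 1) (GG.t p 1) where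
  x g := (g.x : ℚ)
  k g := g.k
  x_one := rfl
  k_one := rfl
  x_a g := by
    rw [GG.mul_x]
    push_cast
    rw [GG.u_pow]
    change (g.x : ℚ) + _ * 1 = _
    rw [mul_one, Nat.cast_one, div_one]
  k_a g := by
    rw [GG.mul_k]
    change g.k + 0 = _
    rw [add_zero]
  x_t g := by
    rw [GG.mul_x]
    have h1 : (GG.t p 1).x = 0 := rfl
    rw [h1, mul_zero, add_zero]
  k_t g := by
    rw [GG.mul_k]
    rfl
  inj g h h1 h2 := by
    apply GG.ext
    · exact Subtype.ext h1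
    · exact h2

lemma gens_inv {G : Type} [Group G] (a t : G) : gens a t⁻¹ = gens a t := by
  unfold gens
  rw [inv_inv]
  ext x
  simp only [Set.mem_insert_iff, Set.mem_singleton_iff]
  tauto

theorem unbounded_one (q : ℕ) [NeZero q] (hq : 2 ≤ q) (D : ℕ) :
    ∃ g : GG 1 q, D < retreatDepth (gens (GG.a 1 q) (GG.t 1 q)) g := by
  have h1 := (coord_one q).unbounded (by exact_mod_cast hq) D
  rwa [gens_inv] at h1

theorem unbounded_one' (p : ℕ) [NeZero p] (hp : 2 ≤ p) (D : ℕ) :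
    ∃ g : GG p 1, D < retreatDepth (gens (GG.a p 1) (GG.t p 1)) g :=
  (coord_one' p).unbounded (by exact_mod_cast hp) D

end Pool.Agent.Q33.BSR
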