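import Pool.Agent.Q33.BSR.Main

/-!
# The solvable Baumslag–Solitar groups and the groups `G_{p,q}`
-/

set_option autoImplicit false
set_option linter.unusedSectionVars false

namespace Pool.Agent.Q33.BSR

section generic

variable {G : Type} [Group G] {a t : G} {m : ℕ}

lemma t_pow_a (hrel : t * a * t⁻¹ = a ^ m) (j : ℤ) : t * a ^ j = a ^ ((m : ℤ) * j) * t := by
  have h1 : t * a ^ j * t⁻¹ = a ^ ((m : ℤ) * j) := by
    rw [← conj_zpow, hrel, ← zpow_natCast, ← zpow_mul]
  rw [← h1]
  group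

lemma tpow_a (hrel : t * a * t⁻¹ = a ^ m) (l : ℕ) (j : ℤ) :
    t ^ l * a ^ j = a ^ ((m : ℤ) ^ l * j) * t ^ l := by
  induction l with
  | zero => simp
  | succ l ih =>
    rw [pow_succ', mul_assoc, ih, ← mul_assoc, t_pow_a hrel, mul_assoc, pow_succ' (m : ℤ),
      mul_assoc (m : ℤ)]

lemma nf_raise (hrel : t * a * t⁻¹ = a ^ m) (i l r : ℕ) (j : ℤ) :
    (t ^ i)⁻¹ * a ^ j * t ^ l = (t ^ (i + r))⁻¹ * a ^ ((m : ℤ) ^ r * j) * t ^ (l + r) := by
  have h1 := tpow_a hrel r j
  rw [Nat.add_comm i r, pow_add t r i, mul_inv_rev]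
  have h2 : a ^ ((m : ℤ) ^ r * j) = t ^ r * a ^ j * (t ^ r)⁻¹ := by
    rw [h1]
    group
  rw [h2, Nat.add_comm l r, pow_add t r l]
  group

lemma nf (hrel : t * a * t⁻¹ = a ^ m) (hcl : Subgroup.closure {a, t} = ⊤) (g : G) :
    ∃ (i l : ℕ) (j : ℤ), g = (t ^ i)⁻¹ * a ^ j * t ^ l := by
  have hg : g ∈ Subgroup.closure {a, t} := by rw [hcl]; trivial
  have hA : ∀ (i l : ℕ) (j σ : ℤ), (t ^ i)⁻¹ * a ^ j * t ^ l * a ^ σ =
      (t ^ i)⁻¹ * a ^ (j + (m : ℤ) ^ l * σ) * t ^ l := by
    intro i l j σ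
    rw [mul_assoc, tpow_a hrel, zpow_add]
    group
  induction hg using Subgroup.closure_induction_right with
  | one => exact ⟨0, 0, 0, by simp⟩
  | mul_right x hx y hy ih =>
    obtain ⟨i, l, j, rfl⟩ := ih
    rcases hy with rfl | rfl
    · refine ⟨i, l, j + (m : ℤ) ^ l * 1, ?_⟩
      rw [← hA, zpow_one]
    · exact ⟨i, l + 1, j, by rw [pow_succ, mul_assoc, mul_assoc]⟩
  | mul_inv_cancel x hx y hy ih =>
    obtain ⟨i, l, j, rfl⟩ := ih
    rcases hy with rfl | rfl
    · refine ⟨i, l, j + (m : ℤ) ^ l * (-1), ?_⟩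
      rw [← hA, zpow_neg_one]
    · cases l with
      | zero =>
        refine ⟨i + 1, 0, (m : ℤ) ^ 1 * j, ?_⟩
        have h1 := nf_raise hrel i 0 1 j
        rw [h1]
        simp
      | succ l => exact ⟨i, l, j, by rw [pow_succ]; group⟩

/-- coordinates from the action on `ℚ` -/
theorem coord_of (hm : 2 ≤ m) (hrel : t * a * t⁻¹ = a ^ m)
    (hcl : Subgroup.closure {a, t} = ⊤) (φ : G →* Equiv.Perm ℚ) (κ : G →* Multiplicative ℤ)
    (ha : ∀ z, φ a z = z + 1) (ht : ∀ z, φ t z = m * z) (hκa : κ a = 1)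
    (hκt : κ t = Multiplicative.ofAdd 1) : Nonempty (Coord (m : ℤ) G a t) := by
  have hm0 : (m : ℚ) ≠ 0 := by
    have : m ≠ 0 := by omega
    exact_mod_cast this
  have hm0' : ((m : ℤ) : ℚ) ≠ 0 := by exact_mod_cast hm0
  have key : ∀ g : G, ∀ z, φ g z = φ g 0 + ((m : ℤ) : ℚ) ^ (κ g).toAdd * z := by
    intro g
    have hg : g ∈ Subgroup.closure {a, t} := by rw [hcl]; trivial
    induction hg using Subgroup.closure_induction_right with
    | one => intro z; simp
    | mul_right x hx y hy ih =>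
      intro z
      rcases hy with rfl | rfl
      · rw [map_mul, map_mul, hκa, mul_one]
        change φ x (φ y z) = φ x (φ y 0) + _
        rw [ha, ha, ih (z + 1), ih (0 + 1)]
        ring
      · rw [map_mul, map_mul, hκt, toAdd_mul, toAdd_ofAdd, zpow_add_one₀ hm0']
        change φ x (φ y z) = φ x (φ y 0) + _
        rw [ht, ht, ih (m * z), mul_zero]
        push_cast
        ring
    | mul_inv_cancel x hx y hy ih =>
      intro z
      rcases hy with rfl | rfl
      · have h1 : ∀ z, φ y⁻¹ z = z - 1 := by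
          intro z
          rw [map_inv, Equiv.Perm.inv_eq_iff_eq, ha]
          ring
        rw [map_mul, map_mul, map_inv κ, hκa, inv_one, mul_one]
        change φ x (φ y⁻¹ z) = φ x (φ y⁻¹ 0) + _
        rw [h1, h1, ih (z - 1), ih (0 - 1)]
        ring
      · have h1 : ∀ z, φ y⁻¹ z = z / m := by
          intro z
          rw [map_inv, Equiv.Perm.inv_eq_iff_eq, ht]
          field_simp
        rw [map_mul, map_mul, map_inv κ, hκt, toAdd_mul, toAdd_inv, toAdd_ofAdd,
          ← sub_eq_add_neg, zpow_sub_one₀ hm0']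
        change φ x (φ y⁻¹ z) = φ x (φ y⁻¹ 0) + _
        rw [h1, h1, ih (z / m), zero_div]
        push_cast
        field_simp
  refine ⟨⟨fun g => φ g 0, fun g => (κ g).toAdd, by simp, by simp, ?_, ?_, ?_, ?_, ?_⟩⟩
  · intro g
    change φ (g * a) 0 = _
    rw [map_mul]
    change φ g (φ a 0) = _
    rw [ha, key g (0 + 1)]
    ring
  · intro g
    change (κ (g * a)).toAdd = _
    rw [map_mul, hκa, mul_one]
  · intro g
    change φ (g * t) 0 = _
    rw [map_mul]
    change φ g (φ t 0) = _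
    rw [ht, mul_zero]
  · intro g
    change (κ (g * t)).toAdd = _
    rw [map_mul, hκt]
    rfl
  · intro g h hx hk
    have hcoord : ∀ (i l : ℕ) (j : ℤ), φ ((t ^ i)⁻¹ * a ^ j * t ^ l) 0 * (m : ℚ) ^ i = j ∧
        (κ ((t ^ i)⁻¹ * a ^ j * t ^ l)).toAdd = (l : ℤ) - i := by
      intro i l j
      have e1 : ∀ (l : ℕ), φ (t ^ l) 0 = 0 := by
        intro l
        induction l with
        | zero => simp
        | succ l ih =>
          rw [pow_succ, map_mul]
          change φ (t ^ l) (φ t 0) = 0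
          rw [ht, mul_zero, ih]
      have e2 : ∀ z, φ (t ^ i) z = (m : ℚ) ^ i * z := by
        intro z
        rw [key, e1, map_pow, hκt]
        simp
      have e3 : φ (a ^ j) 0 = j := by
        induction j using Int.induction_on with
        | zero => simp
        | succ j ih =>
          rw [add_comm, zpow_add, zpow_one, map_mul]
          change φ a (φ (a ^ (j : ℤ)) 0) = _
          rw [ih, ha]
          push_cast
          ring
        | pred j ih =>
          have h1 : ∀ z, φ a⁻¹ z = z - 1 := by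
            intro z
            rw [map_inv, Equiv.Perm.inv_eq_iff_eq, ha]
            ring
          rw [sub_eq_add_neg, add_comm, zpow_add, zpow_neg_one, map_mul]
          change φ a⁻¹ (φ (a ^ (-(j : ℤ))) 0) = _
          rw [ih, h1]
          push_cast
          ring
      constructor
      · rw [map_mul, map_mul]
        change φ (t ^ i)⁻¹ (φ (a ^ j) (φ (t ^ l) 0)) * _ = _
        rw [e1, e3, mul_comm, ← e2]
        rw [map_inv]
        exact Equiv.apply_symm_apply (φ (t ^ i)) _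
      · have e4 : κ ((t ^ i)⁻¹ * a ^ j * t ^ l) = (Multiplicative.ofAdd (1 : ℤ) ^ i)⁻¹ *
            1 ^ j * Multiplicative.ofAdd (1 : ℤ) ^ l := by
          rw [map_mul κ, map_mul κ, map_inv κ, map_pow κ, map_pow κ, map_zpow κ, hκa, hκt]
        rw [e4]
        simp
        ring
    obtain ⟨i, l, j, rfl⟩ := nf hrel hcl g
    obtain ⟨i', l', j', rfl⟩ := nf hrel hcl h
    obtain ⟨h1, h2⟩ := hcoord i l j
    obtain ⟨h3, h4⟩ := hcoord i' l' j'
    rw [h2, h4] at hk
    rw [hx] at h1
    rw [nf_raise hrel i l i' j, nf_raise hrel i' l' i j']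
    have h5 : l + i' = l' + i := by omega
    have h6 : (m : ℤ) ^ i' * j = (m : ℤ) ^ i * j' := by
      have : (((m : ℤ) ^ i' * j : ℤ) : ℚ) = (((m : ℤ) ^ i * j' : ℤ) : ℚ) := by
        push_cast
        rw [← h1, ← h3]
        ring
      exact_mod_cast this
    rw [h5, h6, Nat.add_comm i i']

end generic

/-- The relator `t a t⁻¹ a⁻ᵐ`, where `a` and `t` are the free generators `0` and `1`. -/
def rels (m : ℕ) : Set (FreeGroup (Fin 2)) :=
  {FreeGroup.of 1 * FreeGroup.of 0 * (FreeGroup.of 1)⁻¹ * (FreeGroup.of 0 ^ m)⁻¹}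

/-- The Baumslag–Solitar group `BS(1, m) = ⟨a, t ∣ t a t⁻¹ = a ^ m⟩`. -/
abbrev BS (m : ℕ) : Type := PresentedGroup (rels m)

/-- the generator `a` -/
def BS.a (m : ℕ) : BS m := PresentedGroup.of 0

/-- the generator `t` -/
def BS.t (m : ℕ) : BS m := PresentedGroup.of 1

lemma BS.rel (m : ℕ) : BS.t m * BS.a m * (BS.t m)⁻¹ = BS.a m ^ m := by
  have h1 : PresentedGroup.mk (rels m)
      (FreeGroup.of 1 * FreeGroup.of 0 * (FreeGroup.of 1)⁻¹ * (FreeGroup.of 0 ^ m)⁻¹) = 1 :=
    PresentedGroup.one_of_mem rfl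
  rw [map_mul, map_mul, map_mul, map_inv, map_inv, map_pow, mul_inv_eq_one] at h1
  exact h1

lemma BS.closure (m : ℕ) : Subgroup.closure {BS.a m, BS.t m} = ⊤ := by
  rw [← PresentedGroup.closure_range_of (rels m)]
  congr 1
  ext g
  constructor
  · rintro (rfl | rfl)
    · exact ⟨0, rfl⟩
    · exact ⟨1, rfl⟩
  · rintro ⟨i, rfl⟩
    fin_cases i
    · exact Or.inl rfl
    · exact Or.inr rfl

theorem BS.coord (m : ℕ) (hm : 2 ≤ m) : Nonempty (Coord (m : ℤ) (BS m) (BS.a m) (BS.t m)) := by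
  have hm0 : (m : ℚ) ≠ 0 := by
    have : m ≠ 0 := by omega
    exact_mod_cast this
  let f : Fin 2 → Equiv.Perm ℚ := ![Equiv.addRight 1, Equiv.mulLeft₀ (m : ℚ) hm0]
  have hf0 : ∀ z, f 0 z = z + 1 := fun z => rfl
  have hf1 : ∀ z, f 1 z = m * z := fun z => rfl
  have hpow : ∀ (n : ℕ) (z : ℚ), (f 0 ^ n) z = z + n := by
    intro n
    induction n with
    | zero => intro z; simp
    | succ n ih =>
      intro z
      rw [pow_succ]
      change (f 0 ^ n) (f 0 z) = _
      rw [ih, hf0]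
      push_cast
      ring
  have hf : ∀ r ∈ rels m, FreeGroup.lift f r = 1 := by
    rintro r rfl
    rw [map_mul, map_mul, map_mul, map_inv, map_inv, map_pow, FreeGroup.lift_apply_of,
      FreeGroup.lift_apply_of, mul_inv_eq_one, mul_inv_eq_iff_eq_mul]
    ext z
    change f 1 (f 0 z) = (f 0 ^ m) (f 1 z)
    rw [hpow, hf1, hf1, hf0]
    ring
  let κf : Fin 2 → Multiplicative ℤ := ![1, Multiplicative.ofAdd 1]
  have hκ : ∀ r ∈ rels m, FreeGroup.lift κf r = 1 := by
    rintro r rfl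
    rw [map_mul, map_mul, map_mul, map_inv, map_inv, map_pow, FreeGroup.lift_apply_of,
      FreeGroup.lift_apply_of]
    simp [κf]
  refine coord_of hm (BS.rel m) (BS.closure m) (PresentedGroup.toGroup hf)
    (PresentedGroup.toGroup hκ) ?_ ?_ ?_ ?_
  · intro z
    change PresentedGroup.toGroup hf (PresentedGroup.of 0) z = _
    rw [PresentedGroup.toGroup.of]
    exact hf0 z
  · intro z
    change PresentedGroup.toGroup hf (PresentedGroup.of 1) z = _
    rw [PresentedGroup.toGroup.of]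
    exact hf1 z
  · change PresentedGroup.toGroup hκ (PresentedGroup.of 0) = _
    rw [PresentedGroup.toGroup.of]
    rfl
  · change PresentedGroup.toGroup hκ (PresentedGroup.of 1) = _
    rw [PresentedGroup.toGroup.of]
    rfl

end Pool.Agent.Q33.BSR
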