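import Pool.Agent.Q33.BSR.Words

/-!
# Unbounded retreat depth
-/

set_option autoImplicit false
set_option linter.unusedSectionVars false

namespace Pool.Agent.Q33.BSR

section general

variable {G : Type} [Group G] {S : Set G}

lemma comp_mono (g : G) {d d' : ℕ} (h : d ≤ d') : comp S g d ⊆ comp S g d' := by
  intro v hv
  change Relation.ReflTransGen _ g v at hv
  change Relation.ReflTransGen _ g v
  induction hv with
  | refl => exact Relation.ReflTransGen.refl
  | tail _ h1 ih => exact ih.tail ⟨h1.1, by omega⟩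

lemma lt_retreatDepth {g : G} {D : ℕ} (h1 : (comp S g D).Finite)
    (h2 : (comp S g (len S g)).Infinite) : D < retreatDepth S g := by
  by_contra hcon
  push Not at hcon
  have h3 : (comp S g (retreatDepth S g)).Infinite :=
    Nat.sInf_mem (s := {d : ℕ | (comp S g d).Infinite}) ⟨_, h2⟩
  exact h3 (h1.subset (comp_mono g hcon))

end general

namespace Coord

variable {m : ℤ} {G : Type} [Group G] {a t : G} (c : Coord m G a t)

include c

lemma comp_infinite (g : G) : (comp (gens a t) g (len (gens a t) g)).Infinite := by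
  have h1 : ∀ j : ℕ, g * t ^ j ∈ comp (gens a t) g (len (gens a t) g) := by
    intro j
    induction j with
    | zero =>
      rw [pow_zero, mul_one]
      exact Relation.ReflTransGen.refl
    | succ j ih =>
      refine Relation.ReflTransGen.tail ih ⟨⟨t, mem_t, ?_⟩, by omega⟩
      rw [pow_succ, mul_assoc]
  refine Set.infinite_of_injective_forall_mem (f := fun j : ℕ => g * t ^ j) ?_ h1
  intro i j hij
  have h2 := congrArg c.k hij
  simp only at h2
  have h3 := c.k_tpow g i
  have h4 := c.k_tpow g j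
  rw [zpow_natCast] at h3 h4
  rw [h3, h4] at h2
  omega

/-- the finite region -/
def region (n : ℕ) : Set G :=
  {h | (c.k h).natAbs ≤ n ∧ ∃ z : ℤ, c.x h * (m : ℚ) ^ n = z ∧ |z| < m ^ (2 * n + 1)}

lemma region_finite (hm : 2 ≤ m) (n : ℕ) : (c.region n).Finite := by
  have hm0 : (m : ℚ) ≠ 0 := by
    have : m ≠ 0 := by omega
    exact_mod_cast this
  let T : Set (ℤ × ℤ) := Set.Icc (-(n : ℤ)) n ×ˢ Set.Icc (-(m ^ (2 * n + 1))) (m ^ (2 * n + 1))
  have hT : T.Finite := (Set.finite_Icc _ _).prod (Set.finite_Icc _ _)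
  refine Set.Finite.of_finite_image (f := fun h => (c.k h, (c.x h * (m : ℚ) ^ n).num))
    (hT.subset ?_) ?_
  · rintro _ ⟨h, ⟨h1, z, h2, h3⟩, rfl⟩
    simp only [T, Set.mem_prod, Set.mem_Icc]
    rw [h2, Rat.num_intCast]
    have := abs_lt.1 h3
    omega
  · rintro h ⟨-, z, h2, -⟩ h' ⟨-, z', h2', -⟩ heq
    simp only [Prod.mk.injEq] at heq
    obtain ⟨e1, e2⟩ := heq
    rw [h2, h2', Rat.num_intCast, Rat.num_intCast] at e2
    apply c.inj _ _ _ e1
    have h4 : c.x h * (m : ℚ) ^ n = c.x h' * (m : ℚ) ^ n := by rw [h2, h2', e2]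
    exact mul_right_cancel₀ (pow_ne_zero n hm0) h4

/-- **The elements with unbounded retreat depth.** -/
theorem exists_finite (hm : 2 ≤ m) (D : ℕ) : ∃ g : G, (comp (gens a t) g D).Finite := by
  have hm0 : (m : ℚ) ≠ 0 := by
    have : m ≠ 0 := by omega
    exact_mod_cast this
  set M := m.natAbs with hM
  -- the parameters
  obtain ⟨n, r, hn, hnr⟩ : ∃ n r : ℕ, 2 * (D + 5 * M + 20) ≤ n ∧ n = r + 2 :=
    ⟨2 * (D + 5 * M + 20) + 2, 2 * (D + 5 * M + 20), by omega, rfl⟩
  have hL : 2 * n + 1 = (2 * r + 1) + 4 := by omega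
  obtain ⟨y0, hy0, hF⟩ := exists_F hm (2 * r + 1)
  set L := 2 * r + 1 with hLdef
  set y : ℤ := m * (y0 + m ^ (L + 1)) + 1 with hy
  clear_value L
  have hpL : 0 < m ^ L := pow_pos (by omega) L
  have hpL1 : m ^ (L + 1) = m * m ^ L := pow_succ' m L
  have h2K : 2 * m ^ L ≤ m * m ^ L := mul_le_mul_of_nonneg_right hm hpL.le
  have hcost : F m (2 * n + 1) ≤ cost m y + 2 + 4 * M := by
    have h1 := F_succ_le hm L
    have h2 := F_succ_le hm (L + 1)
    have h3 := F_succ_le hm (L + 2)
    have h4 := F_succ_le hm (L + 3)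
    have h5 := cost_add (m := m) (y0 + m ^ (L + 1)) (-1) (L + 1)
    have h6 : y0 + m ^ (L + 1) + (-1) * m ^ (L + 1) = y0 := by ring
    rw [h6, hF] at h5
    have h7 := cost_add' (m := m) y (-1)
    have h8 : y + (-1) = m * (y0 + m ^ (L + 1)) := by rw [hy]; ring
    rw [h8, cost_mul hm] at h7
    rw [hL]
    have e1 : L + 4 = L + 3 + 1 := rfl
    have e2 : L + 3 = L + 2 + 1 := rfl
    have e3 : L + 2 = L + 1 + 1 := rfl
    rw [e1]
    rw [← e2] at h3
    rw [← e3] at h2
    simp only [← hM] at h1 h2 h3 h4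
    have h9 : (-1 : ℤ).natAbs = 1 := rfl
    rw [h9] at h5 h7
    omega
  have habs1 : m ^ (L + 1) ≤ |y| := by
    have h1 := abs_lt.1 hy0
    have h2 : m ^ L ≤ y0 + m ^ (L + 1) := by
      rw [hpL1]
      linarith
    have h3 : m ^ (L + 1) ≤ y := by
      have h4 := mul_le_mul_of_nonneg_left h2 (by omega : (0 : ℤ) ≤ m)
      rw [← hpL1] at h4
      linarith
    exact h3.trans (le_abs_self y)
  have habs2 : |y| < m ^ (2 * n + 1) := by
    have h1 := abs_lt.1 hy0
    have h0 : 0 ≤ y := by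
      rw [hy]
      have h2 : 0 ≤ y0 + m ^ (L + 1) := by
        rw [hpL1]
        linarith
      have h3 := mul_nonneg (by omega : (0 : ℤ) ≤ m) h2
      linarith
    rw [abs_of_nonneg h0, hL, hy]
    have h2 : y0 + m ^ (L + 1) + 1 ≤ m ^ (L + 2) := by
      have h5 : m ^ (L + 2) = m * (m * m ^ L) := by ring
      have h6 : 2 * (m * m ^ L) ≤ m * (m * m ^ L) :=
        mul_le_mul_of_nonneg_right hm (by positivity)
      rw [hpL1, h5]
      linarith
    have h3 : m ^ (L + 4) = m * (m * m ^ (L + 2)) := by ring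
    have h4 : 0 < m ^ (L + 2) := pow_pos (by omega) _
    have h5 := mul_le_mul_of_nonneg_left h2 (by omega : (0 : ℤ) ≤ m)
    have h6 : 0 < m * m ^ (L + 2) := mul_pos (by omega) h4
    have h7 : 2 * (m * m ^ (L + 2)) ≤ m * (m * m ^ (L + 2)) :=
      mul_le_mul_of_nonneg_right hm h6.le
    rw [h3]
    rw [mul_add, mul_one] at h5
    linarith
  have hndvd : ¬ m ∣ y := by
    rintro ⟨q, hq⟩
    have h1 : m ∣ 1 := ⟨q - (y0 + m ^ (L + 1)), by rw [hy] at hq; linarith⟩
    have h2 := Int.le_of_dvd one_pos h1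
    omega
  -- the element
  set g : G := t ^ (-(n : ℤ)) * a ^ y * t ^ (n : ℤ) with hg
  have hgk : c.k g = 0 := by
    have h1 := c.k_tpow 1 (-(n : ℤ))
    rw [one_mul] at h1
    rw [hg, c.k_tpow, c.k_apow, h1, c.k_one]
    ring
  have hgx : c.x g * (m : ℚ) ^ n = (y : ℤ) := by
    have h1 := c.k_tpow 1 (-(n : ℤ))
    have h2 := c.x_tpow 1 (-(n : ℤ))
    rw [one_mul] at h1 h2
    rw [hg, c.x_tpow, c.x_apow, h1, h2, c.x_one, c.k_one, zero_add, zero_add, zpow_neg,
      zpow_natCast, mul_assoc, inv_mul_cancel₀ (pow_ne_zero n hm0), mul_one]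
  have hgw : IsWord (gens a t) _ g :=
    ((IsWord.zpow mem_t mem_t' (-(n : ℤ))).mul (IsWord.zpow mem_a mem_a' y)).mul
      (IsWord.zpow mem_t mem_t' (n : ℤ))
  have hlen : F m (2 * n + 1) + 4 * n ≤ len (gens a t) g + 5 * M + 8 := by
    obtain ⟨l, hl1, hl2, hl3⟩ := hgw.exists_min
    obtain ⟨P, Q, e, h1, h2, -, -, h5⟩ := c.lower hm l hl2
    rw [hl3] at h2 h5
    rw [hgk, Int.natAbs_zero] at h5
    have hnP : n ≤ P := by
      by_contra hcon
      push Not at hcon
      obtain ⟨j, rfl⟩ : ∃ j, n = P + (j + 1) := ⟨n - P - 1, by omega⟩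
      apply hndvd
      have h6 : ((V m e * m ^ (j + 1) : ℤ) : ℚ) = (y : ℤ) := by
        calc ((V m e * m ^ (j + 1) : ℤ) : ℚ) = (V m e : ℚ) * (m : ℚ) ^ (j + 1) := by push_cast; rfl
          _ = c.x g * (m : ℚ) ^ P * (m : ℚ) ^ (j + 1) := by rw [h2]
          _ = c.x g * (m : ℚ) ^ (P + (j + 1)) := by rw [mul_assoc, ← pow_add]
          _ = (y : ℤ) := hgx
      have h7 : V m e * m ^ (j + 1) = y := by exact_mod_cast h6
      exact ⟨V m e * m ^ j, by rw [← h7]; ring⟩
    obtain ⟨j, rfl⟩ : ∃ j, P = n + j := ⟨P - n, by omega⟩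
    have h6 : V m e = m ^ j * y := by
      have h7 : ((V m e : ℤ) : ℚ) = ((m ^ j * y : ℤ) : ℚ) := by
        rw [← h2, pow_add, ← mul_assoc, hgx]
        push_cast
        ring
      exact_mod_cast h7
    have hne : e ≠ [] := by
      rintro rfl
      simp at h1
    have h7 : m ^ (L + 1 + j) ≤ |V m e| := by
      rw [h6, abs_mul, abs_of_nonneg (pow_nonneg (by omega) j), pow_add, mul_comm]
      exact mul_le_mul_of_nonneg_left habs1 (pow_nonneg (by omega) j)
    have h8 := restricted hm _ e rfl hne (L + 1 + j) h7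
    rw [h6, cost_mul_pow hm] at h8
    have h9 : (m.natAbs : ℤ) = m := Int.natAbs_of_nonneg (by omega)
    rw [h1] at h8
    push_cast at h8
    omega
  refine ⟨g, (c.region_finite hm n).subset ?_⟩
  -- the exit argument
  have hexit : ∀ h ∈ c.region n, len (gens a t) g ≤ len (gens a t) h + D → ∀ s ∈ gens a t,
      h * s ∈ c.region n := by
    rintro h ⟨hk, z, hz, hzL⟩ hlenh s hs
    have hz' : |z| ≤ m ^ (2 * n + 1) := hzL.le
    -- the letters `a`
    have hA : ∀ σ : ℤ, σ.natAbs = 1 → c.x (h * s) = c.x h + σ * (m : ℚ) ^ c.k h →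
        c.k (h * s) = c.k h → h * s ∈ c.region n := by
      intro σ hσ hx hk'
      obtain ⟨i, hi⟩ : ∃ i : ℕ, c.k h + n = i := ⟨(c.k h + n).toNat, by omega⟩
      refine ⟨by rw [hk']; exact hk, z + σ * m ^ i, ?_, ?_⟩
      · rw [hx, add_mul, hz]
        push_cast
        rw [mul_assoc, ← zpow_natCast (m : ℚ) n, ← zpow_add₀ hm0, hi, zpow_natCast]
      · by_contra hcon
        push Not at hcon
        have hpi : 0 < m ^ i := pow_pos (by omega) i
        obtain ⟨τ, hτ, hw⟩ : ∃ τ : ℤ, τ.natAbs = 1 ∧ |z - τ * m ^ (2 * n + 1)| ≤ m ^ i := by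
          have h1 := abs_lt.1 hzL
          have hσ' : σ * m ^ i ≤ m ^ i ∧ -(σ * m ^ i) ≤ m ^ i := by
            rcases Int.natAbs_eq σ with h2 | h2 <;> rw [hσ] at h2 <;> rw [h2] <;>
              constructor <;> push_cast <;> linarith
          rcases le_abs.1 hcon with h2 | h2
          · refine ⟨1, rfl, ?_⟩
            rw [one_mul, abs_le]
            constructor <;> linarith [hσ'.1, hσ'.2]
          · refine ⟨-1, rfl, ?_⟩
            rw [neg_one_mul, sub_neg_eq_add, abs_le]
            constructor <;> linarith [hσ'.1, hσ'.2]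
        set w := z - τ * m ^ (2 * n + 1) with hwdef
        have hcw : cost m w ≤ F m i + 1 := by
          rcases lt_or_eq_of_le hw with h1 | h1
          · have := le_F h1
            omega
          · obtain ⟨ρ, hρ, hρw⟩ : ∃ ρ : ℤ, ρ.natAbs = 1 ∧ w = 0 + ρ * m ^ i := by
              rcases abs_choice w with h2 | h2
              · exact ⟨1, rfl, by rw [← h1, h2]; ring⟩
              · exact ⟨-1, rfl, by rw [← h1, h2]; ring⟩
            have h2 := cost_add (m := m) 0 ρ i
            rw [← hρw, hρ, cost_zero] at h2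
            omega
        obtain ⟨l, h1, h2, h3⟩ := short hm i w hw
        obtain ⟨l1, h4, h5, h6⟩ := pad m l (2 * n + 2) (by omega)
        obtain ⟨l2, h7, h8, h9⟩ := addAt m τ (2 * n + 1) l1
        have h10 := h9 (by omega)
        have h11 := c.upper hm h n (n + 1) l2 (by omega) (by
          rw [hz, h7, h5, h1, hwdef]
          congr 1
          ring) (by omega) (by omega)
        have h12 := F_growth' hm i (2 * n + 1 - i)
        have h13 : i + (2 * n + 1 - i) = 2 * n + 1 := by omega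
        rw [h13] at h12
        omega
    -- the letters `t`
    have hT : c.x (h * s) = c.x h → (c.k (h * s) = c.k h + 1 ∨ c.k (h * s) = c.k h - 1) →
        h * s ∈ c.region n := by
      intro hx hk'
      refine ⟨?_, z, by rw [hx]; exact hz, hzL⟩
      by_contra hcon
      obtain ⟨l, h1, h2, h3⟩ := short hm (2 * n + 1) z hz'
      have h4 := c.upper hm h n (n + 1) l (by omega) (by rw [hz, h1]) (by omega) (by omega)
      have h5 := le_F hzL
      omega
    rcases hs with rfl | rfl | rfl | rfl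
    · refine hA 1 rfl ?_ (c.k_a _)
      rw [c.x_a]
      push_cast
      ring
    · refine hA (-1) rfl ?_ (c.k_a' _)
      rw [c.x_a']
      push_cast
      ring
    · exact hT (c.x_t _) (Or.inl (c.k_t _))
    · exact hT (c.x_t' _) (Or.inr (c.k_t' _))
  intro v hv
  have key : v ∈ c.region n ∧ len (gens a t) g ≤ len (gens a t) v + D := by
    induction hv with
    | refl => exact ⟨⟨by rw [hgk]; simp, y, hgx, habs2⟩, by omega⟩
    | tail _ hstep ih =>
      obtain ⟨⟨s, hs, rfl⟩, h2⟩ := hstep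
      exact ⟨hexit _ ih.1 ih.2 s hs, by omega⟩
  exact key.1

/-- **The retreat depth is unbounded.** -/
theorem unbounded (hm : 2 ≤ m) (D : ℕ) : ∃ g : G, D < retreatDepth (gens a t) g := by
  obtain ⟨g, hg⟩ := c.exists_finite hm D
  exact ⟨g, lt_retreatDepth hg (c.comp_infinite g)⟩

end Coord

end Pool.Agent.Q33.BSR
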