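import Pool.Agent.Q33.BSR.Digits

/-!
# Words in groups of affine maps
-/

set_option autoImplicit false
set_option linter.unusedSectionVars false

namespace Pool.Agent.Q33.BSR

section length

variable {G : Type} [Group G]

/-- `g` is a product of `n` elements of `S` -/
def IsWord (S : Set G) (n : ℕ) (g : G) : Prop :=
  ∃ l : List G, l.length = n ∧ (∀ s ∈ l, s ∈ S) ∧ l.prod = g

/-- the word length of `g` with respect to `S` -/
noncomputable def len (S : Set G) (g : G) : ℕ := sInf {n : ℕ | IsWord S n g}

/-- the set of the elements that can be reached from `g` along a path in the Cayley graph outside the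
ball of radius `|g| - d - 1` -/
def comp (S : Set G) (g : G) (d : ℕ) : Set G :=
  {h | Relation.ReflTransGen
    (fun u v => (∃ s ∈ S, v = u * s) ∧ len S g < len S v + d + 1) g h}

/-- the retreat depth -/
noncomputable def retreatDepth (S : Set G) (g : G) : ℕ := sInf {d : ℕ | (comp S g d).Infinite}

variable {S : Set G}

lemma IsWord.len_le {n : ℕ} {g : G} (h : IsWord S n g) : len S g ≤ n := Nat.sInf_le h

lemma IsWord.exists_min {n : ℕ} {g : G} (h : IsWord S n g) : IsWord S (len S g) g :=
  Nat.sInf_mem (s := {n : ℕ | IsWord S n g}) ⟨n, h⟩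

lemma IsWord.mul {n n' : ℕ} {g g' : G} (h : IsWord S n g) (h' : IsWord S n' g') :
    IsWord S (n + n') (g * g') := by
  obtain ⟨l, h1, h2, h3⟩ := h
  obtain ⟨l', h1', h2', h3'⟩ := h'
  refine ⟨l ++ l', by rw [List.length_append, h1, h1'], ?_, by
    rw [List.prod_append, h3, h3']⟩
  intro s hs
  rcases List.mem_append.1 hs with hs | hs
  · exact h2 s hs
  · exact h2' s hs

lemma IsWord.one : IsWord S 0 1 := ⟨[], rfl, by simp, rfl⟩

lemma IsWord.pow {s : G} (hs : s ∈ S) (n : ℕ) : IsWord S n (s ^ n) :=
  ⟨List.replicate n s, List.length_replicate, fun x hx => by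
    rw [List.eq_of_mem_replicate hx]; exact hs, List.prod_replicate n s⟩

lemma IsWord.zpow {s : G} (hs : s ∈ S) (hs' : s⁻¹ ∈ S) (z : ℤ) : IsWord S z.natAbs (s ^ z) := by
  rcases le_or_gt 0 z with hz | hz
  · obtain ⟨n, rfl⟩ := Int.eq_ofNat_of_zero_le hz
    rw [zpow_natCast]
    exact IsWord.pow hs n
  · obtain ⟨n, rfl⟩ : ∃ n : ℕ, z = -(n : ℤ) := ⟨z.natAbs, by omega⟩
    rw [zpow_neg, ← inv_zpow, zpow_natCast, Int.natAbs_neg, Int.natAbs_natCast]
    exact IsWord.pow hs' n

end length

/-- Coordinates of a group in the group of the maps `z ↦ x + m ^ k z`. -/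
structure Coord (m : ℤ) (G : Type) [Group G] (a t : G) where
  /-- the translation part -/
  x : G → ℚ
  /-- the exponent -/
  k : G → ℤ
  x_one : x 1 = 0
  k_one : k 1 = 0
  x_a : ∀ g, x (g * a) = x g + (m : ℚ) ^ k g
  k_a : ∀ g, k (g * a) = k g
  x_t : ∀ g, x (g * t) = x g
  k_t : ∀ g, k (g * t) = k g + 1
  inj : ∀ g h, x g = x h → k g = k h → g = h

/-- the generating set -/
def gens {G : Type} [Group G] (a t : G) : Set G := {a, a⁻¹, t, t⁻¹}

section words

variable {m : ℤ} {G : Type} [Group G] {a t : G}

lemma mem_a : a ∈ gens a t := by simp [gens]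
lemma mem_a' : a⁻¹ ∈ gens a t := by simp [gens]
lemma mem_t : t ∈ gens a t := by simp [gens]
lemma mem_t' : t⁻¹ ∈ gens a t := by simp [gens]

namespace Coord

variable (c : Coord m G a t)

include c

lemma x_a' (g : G) : c.x (g * a⁻¹) = c.x g - (m : ℚ) ^ c.k g := by
  have h1 := c.x_a (g * a⁻¹)
  have h2 := c.k_a (g * a⁻¹)
  rw [inv_mul_cancel_right] at h1 h2
  rw [h1, h2]
  ring

lemma k_a' (g : G) : c.k (g * a⁻¹) = c.k g := by
  have h2 := c.k_a (g * a⁻¹)
  rw [inv_mul_cancel_right] at h2
  exact h2.symm

lemma x_t' (g : G) : c.x (g * t⁻¹) = c.x g := by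
  have h1 := c.x_t (g * t⁻¹)
  rw [inv_mul_cancel_right] at h1
  exact h1.symm

lemma k_t' (g : G) : c.k (g * t⁻¹) = c.k g - 1 := by
  have h2 := c.k_t (g * t⁻¹)
  rw [inv_mul_cancel_right] at h2
  linarith

lemma k_tpow (g : G) (z : ℤ) : c.k (g * t ^ z) = c.k g + z := by
  induction z using Int.induction_on with
  | zero => simp
  | succ i ih =>
    rw [zpow_add_one, ← mul_assoc, c.k_t, ih]
    ring
  | pred i ih =>
    rw [zpow_sub_one, ← mul_assoc, c.k_t', ih]
    ring

lemma x_tpow (g : G) (z : ℤ) : c.x (g * t ^ z) = c.x g := by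
  induction z using Int.induction_on with
  | zero => simp
  | succ i ih => rw [zpow_add_one, ← mul_assoc, c.x_t, ih]
  | pred i ih => rw [zpow_sub_one, ← mul_assoc, c.x_t', ih]

lemma k_apow (g : G) (z : ℤ) : c.k (g * a ^ z) = c.k g := by
  induction z using Int.induction_on with
  | zero => simp
  | succ i ih => rw [zpow_add_one, ← mul_assoc, c.k_a, ih]
  | pred i ih => rw [zpow_sub_one, ← mul_assoc, c.k_a', ih]

lemma x_apow (g : G) (z : ℤ) : c.x (g * a ^ z) = c.x g + z * (m : ℚ) ^ c.k g := by
  induction z using Int.induction_on with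
  | zero => simp
  | succ i ih =>
    rw [zpow_add_one, ← mul_assoc, c.x_a, ih, c.k_apow]
    push_cast
    ring
  | pred i ih =>
    rw [zpow_sub_one, ← mul_assoc, c.x_a', ih, c.k_apow]
    push_cast
    ring

/-- **Lower bound for the length of words.** -/
lemma lower (hm : 2 ≤ m) (l : List G) (hl : ∀ s ∈ l, s ∈ gens a t) :
    ∃ (P Q : ℕ) (e : List ℤ), e.length = P + Q + 1 ∧ c.x l.prod * (m : ℚ) ^ P = V m e ∧
      -(P : ℤ) ≤ c.k l.prod ∧ c.k l.prod ≤ Q ∧
      N e + 2 * P + 2 * Q ≤ l.length + (c.k l.prod).natAbs := by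
  have hm0 : (m : ℚ) ≠ 0 := by
    have : m ≠ 0 := by omega
    exact_mod_cast this
  have hVapp : ∀ e : List ℤ, V m (e ++ [0]) = V m e := by
    intro e
    induction e with
    | nil => simp [V]
    | cons d e ih => simp [V, ih]
  have hNapp : ∀ e : List ℤ, N (e ++ [0]) = N e := by
    intro e
    induction e with
    | nil => simp [N]
    | cons d e ih => simp [N, ih]
  induction l using List.reverseRecOn with
  | nil =>
    refine ⟨0, 0, [0], rfl, ?_, ?_, ?_, ?_⟩
    · rw [List.prod_nil, c.x_one]
      simp [V]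
    · rw [List.prod_nil, c.k_one]
      simp
    · rw [List.prod_nil, c.k_one]
      simp
    · rw [List.prod_nil, c.k_one]
      simp [N]
  | append_singleton l s ih =>
    obtain ⟨P, Q, e, h1, h2, h3, h4, h5⟩ := ih (fun s hs => hl s (by simp [hs]))
    have hs := hl s (by simp)
    rw [List.prod_append, List.prod_singleton, List.length_append, List.length_singleton]
    set g := l.prod with hg
    -- the letters `a`
    have hA : ∀ σ : ℤ, σ.natAbs = 1 → c.x (g * s) = c.x g + σ * (m : ℚ) ^ c.k g →
        c.k (g * s) = c.k g → ∃ (P Q : ℕ) (e : List ℤ), e.length = P + Q + 1 ∧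
        c.x (g * s) * (m : ℚ) ^ P = V m e ∧ -(P : ℤ) ≤ c.k (g * s) ∧ c.k (g * s) ≤ Q ∧
        N e + 2 * P + 2 * Q ≤ l.length + 1 + (c.k (g * s)).natAbs := by
      intro σ hσ hx hk
      obtain ⟨i, hi⟩ : ∃ i : ℕ, c.k g + P = i := ⟨(c.k g + P).toNat, by omega⟩
      obtain ⟨e', h6, h7, h8⟩ := addAt m σ i e
      refine ⟨P, Q, e', by rw [h8 (by omega), h1], ?_, by rw [hk]; exact h3, by
        rw [hk]; exact h4, ?_⟩
      · rw [hx, h6, add_mul, h2]
        push_cast
        rw [mul_assoc, ← zpow_natCast (m : ℚ) P, ← zpow_add₀ hm0, hi, zpow_natCast]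
      · rw [hk]
        omega
    rcases hs with rfl | rfl | rfl | rfl
    · refine hA 1 rfl ?_ (c.k_a _)
      rw [c.x_a]
      push_cast
      ring
    · refine hA (-1) rfl ?_ (c.k_a' _)
      rw [c.x_a']
      push_cast
      ring
    · rcases lt_or_eq_of_le h4 with h6 | h6
      · refine ⟨P, Q, e, h1, by rw [c.x_t]; exact h2, ?_, ?_, ?_⟩
        · rw [c.k_t]; omega
        · rw [c.k_t]; omega
        · rw [c.k_t]
          omega
      · refine ⟨P, Q + 1, e ++ [0], ?_, ?_, ?_, ?_, ?_⟩
        · rw [List.length_append, h1]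
          rfl
        · rw [c.x_t, hVapp]
          exact h2
        · rw [c.k_t]; omega
        · rw [c.k_t]; push_cast; omega
        · rw [c.k_t, hNapp]
          omega
    · rcases lt_or_eq_of_le h3 with h6 | h6
      · refine ⟨P, Q, e, h1, by rw [c.x_t']; exact h2, ?_, ?_, ?_⟩
        · rw [c.k_t']; omega
        · rw [c.k_t']; omega
        · rw [c.k_t']
          omega
      · refine ⟨P + 1, Q, 0 :: e, ?_, ?_, ?_, ?_, ?_⟩
        · rw [List.length_cons, h1]
          ring
        · rw [c.x_t']
          simp only [V]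
          push_cast
          rw [zero_add, pow_succ, ← mul_assoc, h2]
          ring
        · rw [c.k_t']; push_cast; omega
        · rw [c.k_t']; omega
        · rw [c.k_t']
          simp only [N]
          omega

omit c in
/-- the sweep upwards -/
def up (a t : G) : List ℤ → G
  | [] => 1
  | d :: l => a ^ d * t * up a t l

omit c in
/-- the sweep downwards -/
def down (a t : G) : List ℤ → G
  | [] => 1
  | d :: l => down a t l * (a ^ d * t⁻¹)

omit c in
lemma up_word (e : List ℤ) : IsWord (gens a t) (N e + e.length) (up a t e) := by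
  induction e with
  | nil => exact IsWord.one
  | cons d e ih =>
    have h1 : IsWord (gens a t) d.natAbs (a ^ d) := IsWord.zpow mem_a mem_a' d
    have h2 : IsWord (gens a t) 1 t := by
      have := IsWord.pow (mem_t (a := a) (t := t)) 1
      rwa [pow_one] at this
    have h3 := (h1.mul h2).mul ih
    have h4 : d.natAbs + 1 + (N e + e.length) = N (d :: e) + (d :: e).length := by
      simp only [N, List.length_cons]
      ring
    rw [h4] at h3
    exact h3

omit c in
lemma down_word (e : List ℤ) : IsWord (gens a t) (N e + e.length) (down a t e) := by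
  induction e with
  | nil => exact IsWord.one
  | cons d e ih =>
    have h1 : IsWord (gens a t) d.natAbs (a ^ d) := IsWord.zpow mem_a mem_a' d
    have h2 : IsWord (gens a t) 1 t⁻¹ := by
      have := IsWord.pow (mem_t' (a := a) (t := t)) 1
      rwa [pow_one] at this
    have h3 := ih.mul (h1.mul h2)
    have h4 : N e + e.length + (d.natAbs + 1) = N (d :: e) + (d :: e).length := by
      simp only [N, List.length_cons]
      ring
    rw [h4] at h3
    exact h3

lemma up_coord (hm : 2 ≤ m) (e : List ℤ) : ∀ g : G,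
    c.x (g * up a t e) = c.x g + (m : ℚ) ^ c.k g * V m e ∧
    c.k (g * up a t e) = c.k g + e.length := by
  have hm0 : (m : ℚ) ≠ 0 := by
    have : m ≠ 0 := by omega
    exact_mod_cast this
  induction e with
  | nil =>
    intro g
    simp [up, V]
  | cons d e ih =>
    intro g
    have h1 : g * up a t (d :: e) = (g * a ^ d * t) * up a t e := by
      simp only [up, mul_assoc]
    obtain ⟨h2, h3⟩ := ih (g * a ^ d * t)
    rw [h1, h2, h3, c.x_t, c.k_t, c.x_apow, c.k_apow]
    constructor
    · simp only [V]
      push_cast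
      rw [zpow_add_one₀ hm0]
      ring
    · simp only [List.length_cons]
      push_cast
      ring

lemma down_coord (hm : 2 ≤ m) (e : List ℤ) : ∀ g : G,
    c.x (g * down a t e) = c.x g + (m : ℚ) ^ (c.k g - e.length + 1) * V m e ∧
    c.k (g * down a t e) = c.k g - e.length := by
  have hm0 : (m : ℚ) ≠ 0 := by
    have : m ≠ 0 := by omega
    exact_mod_cast this
  induction e with
  | nil =>
    intro g
    simp [down, V]
  | cons d e ih =>
    intro g
    have h1 : g * down a t (d :: e) = (g * down a t e) * a ^ d * t⁻¹ := by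
      simp only [down, mul_assoc]
    obtain ⟨h2, h3⟩ := ih g
    rw [h1, c.x_t', c.k_t', c.x_apow, c.k_apow, h2, h3]
    constructor
    · simp only [V, List.length_cons]
      push_cast
      have h4 : c.k g - e.length + 1 = (c.k g - (e.length + 1) + 1) + 1 := by ring
      rw [h4, zpow_add_one₀ hm0]
      have h5 : c.k g - (e.length : ℤ) = c.k g - (e.length + 1) + 1 := by ring
      rw [h5]
      ring
    · simp only [List.length_cons]
      push_cast
      ring

omit c in
lemma pad (m : ℤ) (e : List ℤ) (r : ℕ) (h : e.length ≤ r) :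
    ∃ e', e'.length = r ∧ V m e' = V m e ∧ N e' = N e := by
  have hV : ∀ (e : List ℤ) (j : ℕ), V m (e ++ List.replicate j 0) = V m e := by
    intro e j
    induction e with
    | nil =>
      induction j with
      | zero => rfl
      | succ j ih =>
        rw [List.replicate_succ]
        simp only [List.nil_append, V] at ih ⊢
        rw [ih]
        ring
    | cons d e ih => simp only [List.cons_append, V, ih]
  have hN : ∀ (e : List ℤ) (j : ℕ), N (e ++ List.replicate j 0) = N e := by
    intro e j
    induction e with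
    | nil =>
      induction j with
      | zero => rfl
      | succ j ih =>
        rw [List.replicate_succ]
        simp only [List.nil_append, N] at ih ⊢
        rw [ih]
        rfl
    | cons d e ih => simp only [List.cons_append, N, ih]
  refine ⟨e ++ List.replicate (r - e.length) 0, ?_, hV _ _, hN _ _⟩
  rw [List.length_append, List.length_replicate]
  omega

/-- **Upper bound for the length.** -/
lemma upper (hm : 2 ≤ m) (g : G) (P Q : ℕ) (e : List ℤ) (he : e.length ≤ P + Q + 1)
    (hx : c.x g * (m : ℚ) ^ P = V m e) (hk1 : -(P : ℤ) ≤ c.k g) (hk2 : c.k g ≤ Q) :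
    len (gens a t) g + (c.k g).natAbs ≤ N e + 2 * P + 2 * Q + 2 := by
  have hm0 : (m : ℚ) ≠ 0 := by
    have : m ≠ 0 := by omega
    exact_mod_cast this
  obtain ⟨e', h1, h2, h3⟩ := pad m e _ he
  rw [← h2] at hx
  rw [← h3]
  have hxg : c.x g = (m : ℚ) ^ (-(P : ℤ)) * V m e' := by
    rw [← hx, zpow_neg, zpow_natCast]
    field_simp
  rcases le_or_gt 0 (c.k g) with h0 | h0
  · have h4 : g = t ^ (-(P : ℤ)) * up a t e' * t ^ (c.k g - (Q + 1)) := by
      apply c.inj
      · rw [c.x_tpow, (c.up_coord hm e' _).1]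
        have h5 := c.x_tpow 1 (-(P : ℤ))
        have h6 := c.k_tpow 1 (-(P : ℤ))
        rw [one_mul] at h5 h6
        rw [h5, h6, c.x_one, c.k_one, hxg, zero_add, zero_add]
      · rw [c.k_tpow, (c.up_coord hm e' _).2]
        have h6 := c.k_tpow 1 (-(P : ℤ))
        rw [one_mul] at h6
        rw [h6, c.k_one, h1]
        push_cast
        ring
    have h5 := ((IsWord.zpow mem_t mem_t' (-(P : ℤ))).mul (up_word e')).mul
      (IsWord.zpow (mem_t (a := a) (t := t)) mem_t' (c.k g - (Q + 1)))
    rw [← h4] at h5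
    have h6 := h5.len_le
    omega
  · have h4 : g = t ^ (Q : ℤ) * down a t e' * t ^ (c.k g + (P + 1)) := by
      apply c.inj
      · rw [c.x_tpow, (c.down_coord hm e' _).1]
        have h5 := c.x_tpow 1 (Q : ℤ)
        have h6 := c.k_tpow 1 (Q : ℤ)
        rw [one_mul] at h5 h6
        rw [h5, h6, c.x_one, c.k_one, hxg, zero_add, zero_add, h1]
        congr 2
        push_cast
        ring
      · rw [c.k_tpow, (c.down_coord hm e' _).2]
        have h6 := c.k_tpow 1 (Q : ℤ)
        rw [one_mul] at h6
        rw [h6, c.k_one, h1]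
        push_cast
        ring
    have h5 := ((IsWord.zpow mem_t mem_t' (Q : ℤ)).mul (down_word e')).mul
      (IsWord.zpow (mem_t (a := a) (t := t)) mem_t' (c.k g + (P + 1)))
    rw [← h4] at h5
    have h6 := h5.len_le
    omega

end Coord

end words

end Pool.Agent.Q33.BSR
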